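import Pool.Agent.Helper29.SR.Props
import Pool.Agent.Helper28.RC.Exh
import Pool.Agent.Helper48.RC.Max
import Pool.Agent.Helper48.RC.Polar
import Pool.Agent.Helper19.RC.Csup
import Pool.Agent.Helper85.RC.RepFV
import Pool.Agent.Helper8.RC.QOfT

/-!
# MP_b55b7c_an: stable rank one, packet LocA
-/

open scoped ENNReal NNReal InnerProductSpace ComplexOrder
open Filter Topology

attribute [-instance] CStarMatrix.instAlgebra CStarMatrix.instModule CStarMatrix.instSMul
  CStarMatrix.instMulAction CStarMatrix.instDistribMulAction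

noncomputable section
namespace RC
universe u

namespace H87LocA

/-- `RankTP` also for the zero projection -/
theorem rankT0 (hR : RankTP.{u}) (M : Type u) [CStarAlgebra M] [PartialOrder M]
    [StarOrderedRing M] (φ : TState M) (H : Type u) [NormedAddCommGroup H]
    [InnerProductSpace ℂ H] [CompleteSpace H] (π : M →⋆ₐ[ℂ] (H →L[ℂ] H)) (ρ : M → (H →L[ℂ] H))
    (ξ : H) (h : IsRep φ π ρ ξ) (z : H →L[ℂ] H) (hz : CP (Set.range ρ) z) :
    ∃ (ψ : TState M) (σ : QTrace M), IsQ ψ σ ∧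
    (∀ x, (tr ξ z : ℂ) * ψ.φ x = ⟪ξ, z (π x ξ)⟫_ℂ) ∧
    ∀ (a : M) (p : H →L[ℂ] H), 0 ≤ a →
      p ∈ (Set.range ρ).centralizer → IsStarProjection p → p * π a = π a →
      (∀ y : H →L[ℂ] H, y * π a = 0 → y * p = 0) →
      σ.dim (one1 a) * tr ξ z = tr ξ (z * p) := by
  by_cases h0 : z = 0
  · subst h0
    obtain ⟨σ, hσ⟩ := qOfTP M φ
    refine ⟨φ, σ, hσ, ?_, ?_⟩
    · intro x
      simp [tr]
    · intro a p _ _ _ _ _
      simp [tr]
  · exact hR M φ H π ρ ξ h z hz h0

theorem tr_add {H : Type u} [NormedAddCommGroup H] [InnerProductSpace ℂ H] [CompleteSpace H]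
    (ξ : H) (x y : H →L[ℂ] H) : tr ξ (x + y) = tr ξ x + tr ξ y := by
  simp [tr, inner_add_right]

theorem tr_proj {H : Type u} [NormedAddCommGroup H] [InnerProductSpace ℂ H] [CompleteSpace H]
    (ξ : H) {z : H →L[ℂ] H} (hz : IsStarProjection z) : (tr ξ z : ℂ) = ⟪ξ, z ξ⟫_ℂ ∧ 0 ≤ tr ξ z := by
  have h1 : ⟪ξ, z ξ⟫_ℂ = ⟪z ξ, z ξ⟫_ℂ := by
    have h2 : star z * z = z := by
      rw [hz.isSelfAdjoint.star_eq, hz.isIdempotentElem.eq]
    conv_lhs => rw [← h2]
    rw [ContinuousLinearMap.mul_apply, ContinuousLinearMap.star_eq_adjoint,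
      ContinuousLinearMap.adjoint_inner_right]
  have h3 : ⟪z ξ, z ξ⟫_ℂ = ((‖z ξ‖ ^ 2 : ℝ) : ℂ) := by
    rw [inner_self_eq_norm_sq_to_K]; norm_cast
  unfold tr
  rw [h1, h3, Complex.ofReal_re]
  exact ⟨rfl, sq_nonneg _⟩

end H87LocA

open H87LocA in
theorem locAP (hR : RankTP.{u}) : LocAP.{u} := by
  intro M _ _ _ φ H _ _ _ π ρ ξ h a b m p q ha hb hpc hp hpa hpa' hqc hq hqb hqb' hL
  obtain ⟨hFV, _⟩ := repFVP M φ H π ρ ξ h
  obtain ⟨v, hvc, hvp, hqv, hvpp, hx⟩ := exhP maxP polarP H (Set.range ρ) ξ hFV p hpc q hqc hp hq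
  refine ⟨v, hvc, hvp, hqv, hvpp, ?_⟩
  have hsvc : star v ∈ (Set.range ρ).centralizer := H19Csup.cent_star hFV.star hvc
  have hpidem : p * p = p := hp.isIdempotentElem.eq
  have hpsa : star p = p := hp.isSelfAdjoint.star_eq
  have hvidem : (star v * v) * (star v * v) = star v * v := hvp.isIdempotentElem.eq
  have e1 : (star v * v) * p = star v * v := by rw [mul_assoc, hvpp]
  have e2 : p * (star v * v) = star v * v := by
    have := congrArg star e1
    simpa [star_mul, hpsa, mul_assoc] using this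
  have hmul : ∀ x ∈ (Set.range ρ).centralizer, ∀ y ∈ (Set.range ρ).centralizer,
      x * y ∈ (Set.range ρ).centralizer := fun x hx y hy => Set.mul_mem_centralizer hx hy
  have hsub : ∀ x ∈ (Set.range ρ).centralizer, ∀ y ∈ (Set.range ρ).centralizer,
      x - y ∈ (Set.range ρ).centralizer := by
    intro x hx y hy
    rw [Set.mem_centralizer_iff] at *
    intro m hm
    rw [mul_sub, sub_mul, hx m hm, hy m hm]
  have hrp : IsStarProjection (p - star v * v) := by
    constructor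
    · change (p - star v * v) * (p - star v * v) = p - star v * v
      rw [sub_mul, mul_sub, mul_sub, hpidem, e1, e2, hvidem]
      abel
    · change star (p - star v * v) = p - star v * v
      rw [star_sub, hpsa, star_mul, star_star]
  have hrc : p - star v * v ∈ (Set.range ρ).centralizer := hsub _ hpc _ (hmul _ hsvc _ hvc)
  obtain ⟨z, hz, hz1, hz2⟩ := csupP H (Set.range ρ) hFV.star _ hrc hrp
  have hvvc : v * star v ∈ (Set.range ρ).centralizer := hmul _ hvc _ hsvc
  have hz3 : (q - v * star v) * z = 0 := hz2 _ (hsub _ hqc _ hvvc) hx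
  obtain ⟨hzc, hzp, hzcen⟩ := hz
  have hzc' : (1 : H →L[ℂ] H) - z ∈ (Set.range ρ).centralizer :=
    hsub _ (Set.one_mem_centralizer) _ hzc
  have hz' : CP (Set.range ρ) (1 - z) := by
    refine ⟨hzc', hzp.one_sub, ?_⟩
    intro x hx
    rw [sub_mul, mul_sub, hzcen x hx, one_mul, mul_one]
  obtain ⟨ψ₁, σ₁, hq1, hd1, hr1⟩ := rankT0 hR M φ H π ρ ξ h z ⟨hzc, hzp, hzcen⟩
  obtain ⟨ψ₂, σ₂, hq2, hd2, hr2⟩ := rankT0 hR M φ H π ρ ξ h (1 - z) hz'
  have hr1' := hr1 b q hb hqc hq hqb hqb'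
  have hr2' := hr2 a p ha hpc hp hpa hpa'
  have ht1 : tr ξ (1 : H →L[ℂ] H) = 1 := by
    simp [tr, hFV.norm]
  have ht2 : tr ξ (1 - z) = 1 - tr ξ z := by
    have := tr_add ξ (1 - z) z
    rw [sub_add_cancel, ht1] at this
    linarith
  have hm := hL (tr ξ z) ψ₁ ψ₂ σ₁ σ₂ (tr_proj ξ hzp).2
    (by have := (tr_proj ξ hz'.2.1).2; rw [ht2] at this; linarith) hq1 hq2
    (by
      intro x
      rw [hd1 x]
      have e3 : (1 - (tr ξ z : ℂ)) * ψ₂.φ x = ⟪ξ, (1 - z) (π x ξ)⟫_ℂ := by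
        rw [← hd2 x, ht2]; push_cast; ring
      rw [e3, ← inner_add_right]
      have e4 : z (π x ξ) + (1 - z) (π x ξ) = π x ξ := by simp
      rw [e4, h.inner])
  rw [← ht2, mul_comm, hr1', mul_comm, hr2'] at hm
  -- the trace of `v* v`
  have f1 : star v * v = z * (star v * v) + (1 - z) * (star v * v) := by
    rw [← add_mul]; simp
  have f2 : (1 - z) * (star v * v) = (1 - z) * p := by
    have : (1 - z) * (p - star v * v) = 0 := by
      rw [sub_mul, hz1, one_mul, sub_self]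
    rw [mul_sub] at this
    exact (sub_eq_zero.1 this).symm
  have f3 : tr ξ (z * (star v * v)) = tr ξ (z * q) := by
    have g1 := hFV.trace (z * star v) (hmul _ hzc _ hsvc) v hvc
    have g2 : v * (z * star v) = z * (v * star v) := by
      rw [← mul_assoc, ← hzcen v hvc, mul_assoc]
    have g3 : z * (v * star v) = z * q := by
      rw [sub_mul, sub_eq_zero] at hz3
      rw [hzcen _ hvvc, hzcen _ hqc, hz3]
    unfold tr
    have g4 : (z * (star v * v)) ξ = (z * star v) (v ξ) := rfl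
    rw [g4, g1]
    have g5 : v ((z * star v) ξ) = (v * (z * star v)) ξ := rfl
    rw [g5, g2, g3]
  rw [f1, tr_add, f2, f3]
  exact hm

end RC
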