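import Pool.Agent.Helper75.SR.Goals2
import Pool.Agent.Helper60.SR.GDer
import Pool.Agent.Helper54.SRD.Basic
import Pool.Agent.Helper37.SR.Frame
import Pool.Agent.Helper72.SR.Trace
import Pool.Agent.Helper93.SR.Curv
import Pool.Agent.Helper25.SR.GAlg
import Pool.Agent.Helper41.SR.FVDef

/-!
# Fields along a geodesic with a moving frame (packet GFV)
-/

namespace Pool.Agent.Helper87.SR

open scoped ContDiff Topology Manifold Matrix
open Set Filter Pool.Agent.Helper54.SRD Pool.Agent.Helper75.SR Pool.Agent.Helper60.SR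

set_option synthInstance.maxSize 1000
set_option maxSynthPendingDepth 3

variable {E : Type} [NormedAddCommGroup E] [NormedSpace ℝ E]
variable {M : Type} [TopologicalSpace M] [ChartedSpace E M]

/-- Transformation law of the tensors `φ_a`. -/
theorem phi_trans [IsManifold 𝓘(ℝ, E) ∞ M] (S : ASas E M) (x y : M) {z : E} (hz : z ∈ ov x y)
    (a : Fin 3) (u : E) :
    fderiv ℝ (tr x y) z ((S.loc x).phi a z u)
      = (S.loc y).phi a (tr x y z) (fderiv ℝ (tr x y) z u) := by
  have hzx : z ∈ tgt E x := hz.1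
  have hzy : tr x y z ∈ tgt E y := (tr_mem hz).1
  have h1 : ContDiffAt ℝ ∞ (fderiv ℝ (tr x y : E → E)) z :=
    (contDiffAt_tr hz).fderiv_right (by simp)
  have h2 : HasFDerivAt (fderiv ℝ (tr x y : E → E)) (fderiv ℝ (fderiv ℝ (tr x y : E → E)) z) z :=
    (h1.differentiableAt (by simp)).hasFDerivAt
  have h3 := h2.clm_apply (xi_hasFDerivAt (S.loc x) hzx a)
  have h4 : HasFDerivAt (fun z' => (S.loc y).xi a (tr x y z'))
      ((fderiv ℝ ((S.loc y).xi a) (tr x y z)).comp (fderiv ℝ (tr x y) z)) z :=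
    (xi_hasFDerivAt (S.loc y) hzy a).comp z (differentiableAt_tr hz).hasFDerivAt
  have h5 : (fun z' => (S.loc y).xi a (tr x y z'))
      =ᶠ[𝓝 z] fun z' => fderiv ℝ (tr x y) z' ((S.loc x).xi a z') := by
    filter_upwards [(isOpen_ov x y).mem_nhds hz] with z' hz'
    exact (S.xi_trans x y z' hz' a).symm
  have h6 := (h3.congr_of_eventuallyEq h5).unique h4
  have h7 := congrArg (fun L : E →L[ℝ] E => L u) h6
  have h8 : fderiv ℝ (tr x y) z (fderiv ℝ ((S.loc x).xi a) z u)
      + fderiv ℝ (fderiv ℝ (tr x y)) z u ((S.loc x).xi a z)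
      = fderiv ℝ ((S.loc y).xi a) (tr x y z) (fderiv ℝ (tr x y) z u) := by
    simpa using h7
  unfold LocSas.phi
  rw [phiOf_apply, phiOf_apply, map_neg, map_add, S.Gam_trans x y z hz, S.xi_trans x y z hz,
    ← h8]
  abel

theorem gFV2 (hT : GTay2) : GFV2 := by
  intro E _ _ _ M _ _ _ S β hβ γ τ w t e hF
  refine ⟨fun p f g hp hf hg => ⟨fun x hx => ?_, fun x y hx hy => ?_⟩, fun x hx => ?_⟩
  · obtain ⟨h1, h2, -⟩ := hF.2 x hx
    have hb : ContDiffAt ℝ 1 (bx E γ x) t := h1.of_le (by norm_num)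
    have hz : bx E γ x t ∈ tgt E x := ch_mem hx
    have hphi : ∀ i, ContDiffAt ℝ 1 (fun s => (S.loc x).phi i (bx E γ x s) (e x s)) t := by
      intro i
      have h3 : ContDiffAt ℝ 1 (phiOf (S.loc x).Gam ((S.loc x).xi i)) (bx E γ x t) :=
        ((phi_contDiffOn (S.loc x) i).contDiffAt ((S.loc x).isOpen.mem_nhds hz)).of_le (by simp)
      exact (h3.comp t hb).clm_apply h2
    have hxi : ∀ i, ContDiffAt ℝ 1 (fun s => (S.loc x).xi i (bx E γ x s)) t := by
      intro i
      have h3 : ContDiffAt ℝ 1 ((S.loc x).xi i) (bx E γ x t) :=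
        (((S.loc x).xi_smooth i).contDiffAt ((S.loc x).isOpen.mem_nhds hz)).of_le (by simp)
      exact h3.comp t hb
    have hp1 : ContDiffAt ℝ 1 p t := hp.contDiffAt.of_le (by simp)
    have hf1 : ∀ i, ContDiffAt ℝ 1 (f i) t := fun i => (hf i).contDiffAt.of_le (by simp)
    have hg1 : ∀ i, ContDiffAt ℝ 1 (g i) t := fun i => (hg i).contDiffAt.of_le (by simp)
    exact ((hp1.smul h2).add (ContDiffAt.sum fun i _ => (hf1 i).smul (hphi i))).add
      (ContDiffAt.sum fun i _ => (hg1 i).smul (hxi i))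
  · obtain ⟨-, -, -, -, -, -, h7⟩ := hF.2 x hx
    have hz : (ch x (γ t) : E) ∈ ov x y := mem_ov hx hy
    have htr : tr x y (ch x (γ t) : E) = ch y (γ t) := tr_ch hx
    have he : e y t = fderiv ℝ (tr x y) (ch x (γ t)) (e x t) := h7 y hy
    show p t • e y t + ∑ i, f i t • (S.loc y).phi i (ch y (γ t)) (e y t)
      + ∑ i, g i t • (S.loc y).xi i (ch y (γ t))
      = fderiv ℝ (tr x y) (ch x (γ t)) (p t • e x t
        + ∑ i, f i t • (S.loc x).phi i (ch x (γ t)) (e x t)
        + ∑ i, g i t • (S.loc x).xi i (ch x (γ t)))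
    simp only [map_add, map_smul, map_sum]
    rw [he]
    have k1 : ∀ i, (S.loc y).phi i (ch y (γ t)) (fderiv ℝ (tr x y) (ch x (γ t)) (e x t))
        = fderiv ℝ (tr x y) (ch x (γ t)) ((S.loc x).phi i (ch x (γ t)) (e x t)) := by
      intro i
      rw [phi_trans S x y hz, htr]
    have k2 : ∀ i, (S.loc y).xi i (ch y (γ t))
        = fderiv ℝ (tr x y) (ch x (γ t)) ((S.loc x).xi i (ch x (γ t))) := by
      intro i
      rw [S.xi_trans x y _ hz, htr]
    simp only [k1, k2]
  · obtain ⟨h1, h2, h3, h4, h5, h6, -⟩ := hF.2 x hx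
    have hz : bx E γ x t ∈ tgt E x := ch_mem hx
    have hA : GAlg := Pool.Agent.Helper25.SR.gAlg
    have hC : GCurv := Pool.Agent.Helper93.SR.gCurv
    have hTr : GTrace := Pool.Agent.Helper72.SR.gTrace hA hC
    have hFr : GFrame := Pool.Agent.Helper37.SR.frame hA hC
    have hD : GDer := gDer hA
    have hbx : HasDerivAt (bx E γ x) (τ • e x t + w • (S.loc x).xi 0 (bx E γ x t)) t := by
      rw [← h5]
      exact (h1.differentiableAt (by norm_num)).hasDerivAt
    have hex : HasDerivAt (e x) (deriv (e x) t) t := (h2.differentiableAt (by norm_num)).hasDerivAt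
    have h6' : (S.loc x).D (bx E γ x t) (τ • e x t + w • (S.loc x).xi 0 (bx E γ x t)) (e x t)
        (deriv (e x) t) = (2 * (1 + β) * w - w) • (S.loc x).phi 0 (bx E γ x t) (e x t) := by
      rw [← h5]
      exact h6
    refine ⟨fun a b => (S.loc x).g (bx E γ x t) ((S.loc x).R (bx E γ x t)
      ((S.loc x).phi a (bx E γ x t) (e x t)) (e x t) (e x t))
      ((S.loc x).phi b (bx E γ x t) (e x t)), ?_, ?_, ?_, ?_⟩
    · intro i j
      have c1 := hC E (tgt E x) (S.loc x) (bx E γ x t) hz 0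
      have k1 := (c1 ((S.loc x).phi i (bx E γ x t) (e x t)) (e x t) (e x t)
        ((S.loc x).phi j (bx E γ x t) (e x t))).2.2.2.1
      have k2 := (c1 (e x t) ((S.loc x).phi j (bx E γ x t) (e x t))
        ((S.loc x).phi i (bx E γ x t) (e x t)) (e x t)).1
      have k3 := (c1 ((S.loc x).phi j (bx E γ x t) (e x t)) (e x t)
        ((S.loc x).phi i (bx E γ x t) (e x t)) (e x t)).2.1
      show (S.loc x).g (bx E γ x t) _ _ = (S.loc x).g (bx E γ x t) _ _
      rw [k1, k2, map_neg, neg_apply, k3, neg_neg, (S.loc x).g_symm _ hz]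
    · have := hTr E (tgt E x) (S.loc x) (bx E γ x t) hz (e x t) h3
      rw [h4] at this
      simpa using this
    · intro K hK
      have k1 := hK ((S.loc x).phi 0 (bx E γ x t) (e x t)) (e x t)
      have k2 := (S.loc x).killing _ hz 0 (e x t) ((S.loc x).phi 0 (bx E γ x t) (e x t))
      have k3 := (hA E (tgt E x) (S.loc x) (bx E γ x t) hz 0 (e x t)).2.2.2.1
      have k4 : (S.loc x).g (bx E γ x t) ((S.loc x).phi 0 (bx E γ x t) (e x t))
          ((S.loc x).phi 0 (bx E γ x t) (e x t)) = 1 := by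
        have k5 : (S.loc x).g (bx E γ x t) ((S.loc x).phi 0 (bx E γ x t) (e x t))
          ((S.loc x).phi 0 (bx E γ x t) (e x t)) = - (S.loc x).g (bx E γ x t) (e x t)
            ((S.loc x).phi 0 (bx E γ x t) ((S.loc x).phi 0 (bx E γ x t) (e x t))) := k2
        rw [k5, k3, h3 0, zero_smul, add_zero, map_neg, h4, neg_neg]
      change |(S.loc x).g (bx E γ x t) _ _| ≤ K * _ * _ at k1
      rw [k4, h4, mul_one, mul_one] at k1
      exact k1
    · intro p f g hp hf hg
      have hp1 : HasDerivAt p (deriv p t) t := (hp.differentiable (by simp) t).hasDerivAt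
      have hf1 : ∀ i, HasDerivAt (f i) (deriv (f i) t) t :=
        fun i => ((hf i).differentiable (by simp) t).hasDerivAt
      have hg1 : ∀ i, HasDerivAt (g i) (deriv (g i) t) t :=
        fun i => ((hg i).differentiable (by simp) t).hasDerivAt
      obtain ⟨V', hV', hDV⟩ := hD E (tgt E x) (S.loc x) (2 * (1 + β) * w - w) τ w t (bx E γ x)
        (e x) p f g (deriv (e x) t) (deriv p t) (fun i => deriv (f i) t)
        (fun i => deriv (g i) t) hz h3 h4 hbx hex hp1 hf1 hg1 h6'
      have hdV : deriv (fV S γ e p f g x) t = V' := hV'.deriv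
      have q1 : qv ((S.met β hβ).G x) (S.conn.Γ x) (fun t => (ch x (γ t) : E))
          (fV S γ e p f g x) t = (S.loc x).QQ β (bx E γ x t) (deriv (bx E γ x) t)
            (fV S γ e p f g x t) (deriv (fV S γ e p f g x) t) :=
        hT E (tgt E x) (S.loc x) β (bx E γ x t) hz (deriv (bx E γ x) t) (fV S γ e p f g x t)
          (deriv (fV S γ e p f g x) t)
      rw [q1, h5, hdV]
      exact hFr E (tgt E x) (S.loc x) β τ w (bx E γ x t) hz (e x t) h3 h4 (p t) (deriv p t)
        (fun i => f i t) (fun i => deriv (f i) t) (fun i => g i t) (fun i => deriv (g i) t)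
        (fV S γ e p f g x t) V' rfl hDV

theorem gFV (hT : GTay2) : GFV := (gFV2 hT).gfv

end Pool.Agent.Helper87.SR
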