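import Pool.Agent.Helper75.SR.Goals2
import Pool.Agent.Helper60.SR.GDer

/-!
# Rotation of 3-Sasakian structures (packets GRot, GRotA, GSO3)
-/

namespace Pool.Agent.Helper87.SR

open scoped ContDiff Topology Manifold Matrix
open Set Pool.Agent.Helper54.SRD Pool.Agent.Helper75.SR Pool.Agent.Helper60.SR

set_option synthInstance.maxSize 1000

section mat

variable {A : Matrix (Fin 3) (Fin 3) ℝ}

theorem row_dot (hA : IsRot A) (a c : Fin 3) :
    A a 0 * A c 0 + A a 1 * A c 1 + A a 2 * A c 2 = if a = c then 1 else 0 := by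
  have h := congrFun (congrFun hA.1 a) c
  rw [Matrix.mul_apply, Fin.sum_univ_three, Matrix.one_apply] at h
  simpa using h

theorem col_dot (hA : IsRot A) (b c : Fin 3) :
    A 0 b * A 0 c + A 1 b * A 1 c + A 2 b * A 2 c = if b = c then 1 else 0 := by
  have h1 : Aᵀ * A = 1 := mul_eq_one_comm.1 hA.1
  have h := congrFun (congrFun h1 b) c
  rw [Matrix.mul_apply, Fin.sum_univ_three, Matrix.one_apply] at h
  simpa using h

theorem adj_eq (hA : IsRot A) : A.adjugate = Aᵀ := by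
  have h1 : Aᵀ * A = 1 := mul_eq_one_comm.1 hA.1
  have h2 : A * A.adjugate = 1 := by rw [Matrix.mul_adjugate, hA.2, one_smul]
  calc A.adjugate = (Aᵀ * A) * A.adjugate := by rw [h1, one_mul]
    _ = Aᵀ := by rw [mul_assoc, h2, mul_one]

theorem cross (hA : IsRot A) (a : Fin 3) :
    A (a + 2) 0 = A a 1 * A (a + 1) 2 - A a 2 * A (a + 1) 1 ∧
    A (a + 2) 1 = A a 2 * A (a + 1) 0 - A a 0 * A (a + 1) 2 ∧
    A (a + 2) 2 = A a 0 * A (a + 1) 1 - A a 1 * A (a + 1) 0 := by
  have h := adj_eq hA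
  rw [Matrix.adjugate_fin_three] at h
  have h00 := congrFun (congrFun h 0) 0
  have h01 := congrFun (congrFun h 0) 1
  have h02 := congrFun (congrFun h 0) 2
  have h10 := congrFun (congrFun h 1) 0
  have h11 := congrFun (congrFun h 1) 1
  have h12 := congrFun (congrFun h 1) 2
  have h20 := congrFun (congrFun h 2) 0
  have h21 := congrFun (congrFun h 2) 1
  have h22 := congrFun (congrFun h 2) 2
  simp only [Matrix.transpose_apply, Matrix.of_apply, Matrix.cons_val', Matrix.cons_val_zero,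
    Matrix.cons_val_one, Matrix.cons_val, Matrix.empty_val', Matrix.cons_val_fin_one]
    at h00 h01 h02 h10 h11 h12 h20 h21 h22
  fin_cases a
  · show A 2 0 = A 0 1 * A 1 2 - A 0 2 * A 1 1 ∧ A 2 1 = A 0 2 * A 1 0 - A 0 0 * A 1 2 ∧
      A 2 2 = A 0 0 * A 1 1 - A 0 1 * A 1 0
    refine ⟨?_, ?_, ?_⟩ <;> linarith
  · show A 0 0 = A 1 1 * A 2 2 - A 1 2 * A 2 1 ∧ A 0 1 = A 1 2 * A 2 0 - A 1 0 * A 2 2 ∧
      A 0 2 = A 1 0 * A 2 1 - A 1 1 * A 2 0
    refine ⟨?_, ?_, ?_⟩ <;> linarith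
  · show A 1 0 = A 2 1 * A 0 2 - A 2 2 * A 0 1 ∧ A 1 1 = A 2 2 * A 0 0 - A 2 0 * A 0 2 ∧
      A 1 2 = A 2 0 * A 0 1 - A 2 1 * A 0 0
    refine ⟨?_, ?_, ?_⟩ <;> linarith

end mat

variable {E : Type} [NormedAddCommGroup E] [NormedSpace ℝ E] {U : Set E}

theorem rot_hasFDerivAt (S : LocSas E U) (A : Matrix (Fin 3) (Fin 3) ℝ) {x : E} (hx : x ∈ U)
    (a : Fin 3) :
    HasFDerivAt (rotXi A S.xi a) (∑ b, A a b • fderiv ℝ (S.xi b) x) x := by
  have := HasFDerivAt.fun_sum (u := Finset.univ)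
    (fun b _ => ((xi_hasFDerivAt S hx b).const_smul (A a b)))
  exact this

theorem phi_rot (S : LocSas E U) (A : Matrix (Fin 3) (Fin 3) ℝ) {x : E} (hx : x ∈ U)
    (a : Fin 3) :
    phiOf S.Gam (rotXi A S.xi a) x = ∑ b, A a b • phiOf S.Gam (S.xi b) x := by
  unfold phiOf
  rw [(rot_hasFDerivAt S A hx a).fderiv]
  have h1 : rotXi A S.xi a x = ∑ b, A a b • S.xi b x := rfl
  rw [h1, map_sum, ← Finset.sum_add_distrib, ← Finset.sum_neg_distrib]
  refine Finset.sum_congr rfl fun b _ => ?_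
  rw [map_smul, ← smul_add, smul_neg]

theorem fderiv_phi_rot (S : LocSas E U) (A : Matrix (Fin 3) (Fin 3) ℝ) {x : E} (hx : x ∈ U)
    (a : Fin 3) :
    fderiv ℝ (phiOf S.Gam (rotXi A S.xi a)) x
      = ∑ b, A a b • fderiv ℝ (phiOf S.Gam (S.xi b)) x := by
  have h1 : HasFDerivAt (fun y => ∑ b, A a b • phiOf S.Gam (S.xi b) y)
      (∑ b, A a b • fderiv ℝ (phiOf S.Gam (S.xi b)) x) x :=
    HasFDerivAt.fun_sum (u := Finset.univ)
      (fun b _ => ((phi_hasFDerivAt S hx b).const_smul (A a b)))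
  have h2 : phiOf S.Gam (rotXi A S.xi a) =ᶠ[𝓝 x]
      (fun y => ∑ b, A a b • phiOf S.Gam (S.xi b) y) := by
    filter_upwards [S.isOpen.mem_nhds hx] with y hy
    exact phi_rot S A hy a
  exact (h1.congr_of_eventuallyEq h2).fderiv

/-- The rotated structure. -/
noncomputable def rotS (S : LocSas E U) (A : Matrix (Fin 3) (Fin 3) ℝ) (hA : IsRot A) :
    LocSas E U where
  g := S.g
  Gam := S.Gam
  xi := rotXi A S.xi
  isOpen := S.isOpen
  g_smooth := S.g_smooth
  Gam_smooth := S.Gam_smooth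
  xi_smooth a := ContDiffOn.sum fun b _ => (S.xi_smooth b).const_smul (A a b)
  g_symm := S.g_symm
  g_pos := S.g_pos
  Gam_symm := S.Gam_symm
  compat := S.compat
  orth x hx a c := by
    have h := S.orth x hx
    have h1 : ∀ c, rotXi A S.xi c x = A c 0 • S.xi 0 x + A c 1 • S.xi 1 x + A c 2 • S.xi 2 x := by
      intro c
      unfold rotXi
      rw [Fin.sum_univ_three]
    rw [h1, h1, ← row_dot hA a c]
    simp only [map_add, map_smul, add_apply, smul_apply, smul_eq_mul, h]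
    simp
    ring
  killing x hx a v w := by
    rw [phi_rot S A hx a]
    simp only [sum_apply, smul_apply, map_sum, map_smul, smul_eq_mul]
    rw [← Finset.sum_neg_distrib]
    refine Finset.sum_congr rfl fun b _ => ?_
    rw [S.killing x hx b v w]
    ring
  sasaki x hx a v w := by
    rw [phi_rot S A hx a, fderiv_phi_rot S A hx a]
    have h1 : rotXi A S.xi a x = ∑ b, A a b • S.xi b x := rfl
    rw [h1]
    simp only [sum_apply, smul_apply, map_sum, map_smul, smul_eq_mul, Finset.smul_sum,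
      Finset.sum_smul]
    rw [← Finset.sum_add_distrib, ← Finset.sum_sub_distrib, ← Finset.sum_sub_distrib]
    refine Finset.sum_congr rfl fun b _ => ?_
    rw [← smul_add, ← smul_sub, S.sasaki x hx b v w]
    module
  lie x hx a := by
    rw [(rot_hasFDerivAt S A hx a).fderiv, (rot_hasFDerivAt S A hx (a + 1)).fderiv]
    have h1 : ∀ c, rotXi A S.xi c x = A c 0 • S.xi 0 x + A c 1 • S.xi 1 x + A c 2 • S.xi 2 x := by
      intro c
      unfold rotXi
      rw [Fin.sum_univ_three]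
    rw [h1, h1, h1]
    obtain ⟨c0, c1, c2⟩ := cross hA a
    rw [c0, c1, c2]
    have l0 := S.lie x hx 0
    have l1 := S.lie x hx 1
    have l2 := S.lie x hx 2
    rw [show (0 : Fin 3) + 1 = 1 by decide, show (0 : Fin 3) + 2 = 2 by decide] at l0
    rw [show (1 : Fin 3) + 1 = 2 by decide, show (1 : Fin 3) + 2 = 0 by decide] at l1
    rw [show (2 : Fin 3) + 1 = 0 by decide, show (2 : Fin 3) + 2 = 1 by decide] at l2
    rw [Fin.sum_univ_three, Fin.sum_univ_three]
    simp only [map_add, map_smul, add_apply, smul_apply]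
    rw [sub_eq_iff_eq_add] at l0 l1 l2
    rw [l0, l1, l2]
    module

theorem rotS_Gb (S : LocSas E U) (A : Matrix (Fin 3) (Fin 3) ℝ) (hA : IsRot A) (β : ℝ) :
    (rotS S A hA).Gb β = S.Gb β := by
  funext x
  ext v w
  rw [LocSas.Gb_apply, LocSas.Gb_apply]
  show S.g x v w + β * ∑ a, S.g x (rotXi A S.xi a x) v * S.g x (rotXi A S.xi a x) w = _
  congr 2
  have h1 : ∀ c, rotXi A S.xi c x = A c 0 • S.xi 0 x + A c 1 • S.xi 1 x + A c 2 • S.xi 2 x := by
    intro c
    unfold rotXi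
    rw [Fin.sum_univ_three]
  have d00 := col_dot hA 0 0
  have d01 := col_dot hA 0 1
  have d02 := col_dot hA 0 2
  have d11 := col_dot hA 1 1
  have d12 := col_dot hA 1 2
  have d22 := col_dot hA 2 2
  simp only [if_true, Fin.reduceEq, if_false] at d00 d01 d02 d11 d12 d22
  simp only [h1, map_add, map_smul, add_apply, smul_apply, smul_eq_mul, Fin.sum_univ_three]
  linear_combination (S.g x (S.xi 0 x) v * S.g x (S.xi 0 x) w) * d00
    + (S.g x (S.xi 1 x) v * S.g x (S.xi 1 x) w) * d11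
    + (S.g x (S.xi 2 x) v * S.g x (S.xi 2 x) w) * d22
    + (S.g x (S.xi 0 x) v * S.g x (S.xi 1 x) w + S.g x (S.xi 1 x) v * S.g x (S.xi 0 x) w) * d01
    + (S.g x (S.xi 0 x) v * S.g x (S.xi 2 x) w + S.g x (S.xi 2 x) v * S.g x (S.xi 0 x) w) * d02
    + (S.g x (S.xi 1 x) v * S.g x (S.xi 2 x) w + S.g x (S.xi 2 x) v * S.g x (S.xi 1 x) w) * d12

theorem gRot : GRot := fun _ _ _ _ S A hA =>
  ⟨rotS S A hA, rfl, rfl, fun _ => rfl, rotS_Gb S A hA⟩

theorem gRotA : GRotA := by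
  intro E _ _ M _ _ S A hA
  refine ⟨⟨fun x => rotS (S.loc x) A hA, fun x y z hz u v => S.g_trans x y z hz u v,
    fun x y z hz u v => S.Gam_trans x y z hz u v, fun x y z hz a => ?_⟩, fun x =>
    ⟨rfl, rfl, fun _ => rfl, rotS_Gb (S.loc x) A hA⟩⟩
  show fderiv ℝ (tr x y) z (∑ b, A a b • (S.loc x).xi b z)
    = ∑ b, A a b • (S.loc y).xi b (tr x y z)
  rw [map_sum]
  refine Finset.sum_congr rfl fun b _ => ?_
  rw [map_smul, S.xi_trans x y z hz]

theorem gSO3 : GSO3 := by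
  intro w
  set n : ℝ := √(∑ b, w b ^ 2) with hn
  have hs : 0 ≤ ∑ b, w b ^ 2 := Finset.sum_nonneg fun b _ => sq_nonneg _
  have hn2 : n ^ 2 = w 0 ^ 2 + w 1 ^ 2 + w 2 ^ 2 := by
    rw [hn, Real.sq_sqrt hs, Fin.sum_univ_three]
  by_cases hn0 : n = 0
  · refine ⟨1, ⟨by simp, by simp⟩, fun a => ?_⟩
    rw [hn0] at hn2 ⊢
    have w0 : w 0 = 0 := by nlinarith [sq_nonneg (w 0), sq_nonneg (w 1), sq_nonneg (w 2)]
    have w1 : w 1 = 0 := by nlinarith [sq_nonneg (w 0), sq_nonneg (w 1), sq_nonneg (w 2)]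
    have w2 : w 2 = 0 := by nlinarith [sq_nonneg (w 0), sq_nonneg (w 1), sq_nonneg (w 2)]
    rw [Fin.sum_univ_three, w0, w1, w2]
    simp
  · obtain ⟨u0, h0⟩ : ∃ u0, w 0 = n * u0 := ⟨w 0 / n, by field_simp⟩
    obtain ⟨u1, h1⟩ : ∃ u1, w 1 = n * u1 := ⟨w 1 / n, by field_simp⟩
    obtain ⟨u2, h2⟩ : ∃ u2, w 2 = n * u2 := ⟨w 2 / n, by field_simp⟩
    have hu : u0 ^ 2 + u1 ^ 2 + u2 ^ 2 = 1 := by
      rw [h0, h1, h2] at hn2
      have h3 : n ^ 2 * (u0 ^ 2 + u1 ^ 2 + u2 ^ 2) = n ^ 2 * 1 := by linarith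
      exact mul_left_cancel₀ (pow_ne_zero 2 hn0) h3
    by_cases hd0 : 1 + u0 = 0
    · have hu0 : u0 = -1 := by linarith
      have hu1 : u1 = 0 := by
        rw [hu0] at hu
        nlinarith [sq_nonneg u1, sq_nonneg u2]
      have hu2 : u2 = 0 := by
        rw [hu0] at hu
        nlinarith [sq_nonneg u1, sq_nonneg u2]
      refine ⟨!![-1, 0, 0; 0, -1, 0; 0, 0, 1], ⟨?_, ?_⟩, ?_⟩
      · ext i j
        fin_cases i <;> fin_cases j <;> simp [Matrix.mul_apply, Fin.sum_univ_three]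
      · simp [Matrix.det_fin_three]
      · intro a
        rw [Fin.sum_univ_three, h0, h1, h2, hu0, hu1, hu2]
        fin_cases a <;> simp
    · obtain ⟨d, hd⟩ : ∃ d, d * (1 + u0) = 1 := ⟨(1 + u0)⁻¹, inv_mul_cancel₀ hd0⟩
      refine ⟨!![u0, u1, u2; -u1, 1 - d * u1 ^ 2, -(d * u1 * u2);
        -u2, -(d * u1 * u2), 1 - d * u2 ^ 2], ⟨?_, ?_⟩, ?_⟩
      · ext i j
        fin_cases i <;> fin_cases j <;> simp [Matrix.mul_apply, Fin.sum_univ_three]
        · linear_combination hu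
        · linear_combination (-d * u1) * hu - u1 * (1 - u0) * hd
        · linear_combination (-d * u2) * hu - u2 * (1 - u0) * hd
        · linear_combination (-d * u1) * hu - u1 * (1 - u0) * hd
        · linear_combination d ^ 2 * u1 ^ 2 * hu + u1 ^ 2 * (d * (1 - u0) - 1) * hd
        · linear_combination d ^ 2 * u1 * u2 * hu + u1 * u2 * (d * (1 - u0) - 1) * hd
        · linear_combination (-d * u2) * hu - u2 * (1 - u0) * hd
        · linear_combination d ^ 2 * u1 * u2 * hu + u1 * u2 * (d * (1 - u0) - 1) * hd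
        · linear_combination d ^ 2 * u2 ^ 2 * hu + u2 ^ 2 * (d * (1 - u0) - 1) * hd
      · rw [Matrix.det_fin_three]
        simp
        linear_combination (1 - u0 * d) * hu - u0 * (1 - u0) * hd
      · intro a
        rw [Fin.sum_univ_three, h0, h1, h2]
        fin_cases a
        · simp
          linear_combination n * hu
        · simp
          linear_combination n * ((-d * u1) * hu - u1 * (1 - u0) * hd)
        · simp
          linear_combination n * ((-d * u2) * hu - u2 * (1 - u0) * hd)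

end Pool.Agent.Helper87.SR
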